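import Mathlib
import Pool.Agent.Y425.Pack.Lower
import Pool.Agent.Y425.Pack.Small3

set_option autoImplicit false

/-!
# Packing families of balanced trees into `K_{2n-1,k}`: the exact values `f 2 = 2`, `f 3 = 4`

The lower bounds come from a parity obstruction (`P n k` fails for every odd `k < 2 n - 1`), the
upper bounds from explicit packings of all families of `k` trees for `4 ≤ k ≤ 7` (when `n = 3`) and
the fact that packings into `K_{2n-1,k}` and `K_{2n-1,l}` give one into `K_{2n-1,k+l}`.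
-/

namespace Pool.Agent.Results.MP_4c107d_co.SmallValues

/-- The graphs `G i` pack into `H`: there are injective maps of the vertex sets which map edges to
edges of `H` such that the images of the edge sets are pairwise disjoint. -/
def PacksInto {ι W : Type} {V : ι → Type} (G : ∀ i, SimpleGraph (V i)) (H : SimpleGraph W) :
    Prop :=
  ∃ φ : ∀ i, V i → W, (∀ i, Function.Injective (φ i)) ∧
    (∀ i u v, (G i).Adj u v → H.Adj (φ i u) (φ i v)) ∧
    ∀ i j, i ≠ j → Disjoint (Sym2.map (φ i) '' (G i).edgeSet) (Sym2.map (φ j) '' (G j).edgeSet)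

/-- `G` is a tree whose vertex set is the disjoint union of two independent sets with `n` vertices
each. -/
def IsBalancedTree (n : ℕ) {V : Type} (G : SimpleGraph V) : Prop :=
  G.IsTree ∧ ∃ A B : Set V, A ∪ B = Set.univ ∧ Disjoint A B ∧ A.encard = n ∧ B.encard = n ∧
    (∀ u ∈ A, ∀ v ∈ A, ¬ G.Adj u v) ∧ (∀ u ∈ B, ∀ v ∈ B, ¬ G.Adj u v)

/-- `P n k`: every family of `k` trees with `n` vertices in each class packs into
`K_{2n-1,k}`. -/
def P (n k : ℕ) : Prop :=
  ∀ (V : Fin k → Type) (G : ∀ i, SimpleGraph (V i)), (∀ i, IsBalancedTree n (G i)) →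
    PacksInto G (completeBipartiteGraph (Fin (2 * n - 1)) (Fin k))

/-- `f n` is the least `k₀ ≥ 1` such that `P n k` holds for every `k ≥ k₀`, and `⊤` if there is no
such `k₀`. -/
noncomputable def f (n : ℕ) : ℕ∞ :=
  ⨅ k₀ ∈ {k₀ : ℕ | 1 ≤ k₀ ∧ ∀ k ≥ k₀, P n k}, (k₀ : ℕ∞)

/-- `f 1 = 1`, `f 2 = 2` and `f 3 = 4`. -/
theorem result : f 1 = 1 ∧ f 2 = 2 ∧ f 3 = 4 := by
  have hodd : ∀ n k, 1 ≤ n → Odd k → k < 2 * n - 1 → ¬ P n k :=
    fun n k hn hk hk2 => Pool.Agent.Y425.Pack.not_P hn hk hk2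
  have hlow : ∀ n, 2 ≤ n → ((2 * n - 2 : ℕ) : ℕ∞) ≤ f n := by
    intro n hn
    refine le_iInf₂ fun k₀ hk₀ => ?_
    by_contra hcon
    rw [not_le, Nat.cast_lt] at hcon
    exact hodd n (2 * n - 3) (by omega) ⟨n - 2, by omega⟩ (by omega)
      (hk₀.2 (2 * n - 3) (by omega))
  have hup : ∀ n k₀ : ℕ, 1 ≤ k₀ → (∀ k ≥ k₀, P n k) → f n ≤ k₀ :=
    fun n k₀ h1 h2 => iInf₂_le k₀ ⟨h1, h2⟩
  refine ⟨?_, ?_, ?_⟩
  · refine le_antisymm (hup 1 1 le_rfl fun k _ => Pool.Agent.Y425.Pack.P_one k) ?_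
    refine le_iInf₂ fun k₀ hk₀ => ?_
    exact_mod_cast hk₀.1
  · exact le_antisymm (hup 2 2 (by norm_num) fun k hk => Pool.Agent.Y425.Pack.P_two hk)
      (hlow 2 le_rfl)
  · exact le_antisymm (hup 3 4 (by norm_num) fun k hk => Pool.Agent.Y425.Pack.P_three hk)
      (hlow 3 (by norm_num))

end Pool.Agent.Results.MP_4c107d_co.SmallValues
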